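import Pool.Agent.W788.BK.Stm

/-! BK-QB: from Fejer kernels to `1/J`. -/

set_option autoImplicit false
set_option linter.unusedSectionVars false

open scoped BigOperators Matrix
open MeasureTheory

namespace Pool.Agent.W465.BK

open Pool.Agent.W788.BK Pool.Agent.W788.MFP.Four

theorem Fe_nonneg (M : ℕ) (a : ℝ) : 0 ≤ Fe M a := by unfold Fe; positivity

theorem Fe_one (a : ℝ) : Fe 1 a = 1 := by
  unfold Fe
  simp

theorem Fe_lower (M : ℕ) (hM : 1 ≤ M) (a : ℝ) (h : (M : ℝ) * |a| ≤ 1) : 1 / 4 ≤ Fe M a := by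
  unfold Fe
  have hM0 : (0 : ℝ) < M := by exact_mod_cast hM
  have hre : (1 / 2 : ℝ) ≤ ((M : ℂ)⁻¹ * ∑ j ∈ Finset.range M,
      Complex.exp (Complex.I * ((j * a : ℝ) : ℂ))).re := by
    have e1 : ((M : ℂ)⁻¹ * ∑ j ∈ Finset.range M,
        Complex.exp (Complex.I * ((j * a : ℝ) : ℂ))).re =
        (M : ℝ)⁻¹ * ∑ j ∈ Finset.range M, Real.cos (j * a) := by
      have : ((M : ℂ)⁻¹) = (((M : ℝ)⁻¹ : ℝ) : ℂ) := by push_cast; rfl
      rw [this, Complex.re_ofReal_mul, Complex.re_sum]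
      congr 1
      refine Finset.sum_congr rfl fun j _ => ?_
      rw [mul_comm Complex.I, Complex.exp_ofReal_mul_I_re]
    rw [e1]
    have h2 : ∀ j ∈ Finset.range M, (1 / 2 : ℝ) ≤ Real.cos (j * a) := by
      intro j hj
      have hj' : (j : ℝ) ≤ M := by exact_mod_cast (Finset.mem_range.mp hj).le
      have h3 : |(j : ℝ) * a| ≤ 1 := by
        rw [abs_mul, abs_of_nonneg (by positivity : (0 : ℝ) ≤ j)]
        exact (mul_le_mul_of_nonneg_right hj' (abs_nonneg a)).trans h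
      have h4 : ((j : ℝ) * a) ^ 2 ≤ 1 := by
        rw [← sq_abs]; nlinarith [abs_nonneg ((j : ℝ) * a)]
      have h5 := Real.one_sub_sq_div_two_le_cos (x := (j : ℝ) * a)
      linarith
    have h6 : (M : ℝ) * (1 / 2) ≤ ∑ j ∈ Finset.range M, Real.cos (j * a) := by
      have := Finset.card_nsmul_le_sum (Finset.range M) (fun j : ℕ => Real.cos (j * a)) (1 / 2) h2
      rw [Finset.card_range, nsmul_eq_mul] at this
      exact this
    have h7 : (M : ℝ)⁻¹ * ((M : ℝ) * (1 / 2)) = 1 / 2 := by field_simp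
    rw [← h7]
    exact mul_le_mul_of_nonneg_left h6 (by positivity)
  have h8 := (hre.trans (Complex.re_le_norm _))
  nlinarith

theorem inv_abs_le (K : ℕ) : ∀ a : ℝ, ((2 : ℝ) ^ K)⁻¹ < |a| →
    |a|⁻¹ ≤ 8 * ∑ n ∈ Finset.range (K + 1), (2 : ℝ) ^ n * Fe (2 ^ n) a := by
  induction K with
  | zero =>
    intro a ha
    simp only [pow_zero, inv_one] at ha
    simp only [zero_add, Finset.range_one, Finset.sum_singleton, pow_zero, one_mul, Fe_one]
    have : |a|⁻¹ ≤ 1 := inv_le_one_of_one_le₀ ha.le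
    linarith
  | succ K ih =>
    intro a ha
    rw [Finset.sum_range_succ, mul_add]
    by_cases h : ((2 : ℝ) ^ K)⁻¹ < |a|
    · have h1 := ih a h
      have h2 : 0 ≤ (2 : ℝ) ^ (K + 1) * Fe (2 ^ (K + 1)) a := by
        have := Fe_nonneg (2 ^ (K + 1)) a
        positivity
      linarith
    · push Not at h
      -- use the term of index `K`
      have hp : (0 : ℝ) < (2 : ℝ) ^ K := by positivity
      have h0 : 0 < |a| := lt_trans (by positivity) ha
      have h1 : ((2 ^ K : ℕ) : ℝ) * |a| ≤ 1 := by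
        push_cast
        calc (2 : ℝ) ^ K * |a| ≤ (2 : ℝ) ^ K * ((2 : ℝ) ^ K)⁻¹ :=
              mul_le_mul_of_nonneg_left h hp.le
          _ = 1 := mul_inv_cancel₀ hp.ne'
      have h2 := Fe_lower (2 ^ K) (Nat.one_le_two_pow) a h1
      have h3 : |a|⁻¹ ≤ (2 : ℝ) ^ (K + 1) := by
        rw [inv_le_comm₀ h0 (by positivity)]
        exact ha.le
      have h4 : 2 ^ K * Fe (2 ^ K) a ≤ ∑ n ∈ Finset.range (K + 1), (2 : ℝ) ^ n * Fe (2 ^ n) a := by
        refine Finset.single_le_sum (f := fun n => (2 : ℝ) ^ n * Fe (2 ^ n) a) ?_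
          (Finset.self_mem_range_succ K)
        intro n _
        have := Fe_nonneg (2 ^ n) a
        positivity
      have h5 : (2 : ℝ) ^ (K + 1) ≤ 8 * (2 ^ K * Fe (2 ^ K) a) := by
        rw [pow_succ]; nlinarith
      have h6 : 0 ≤ (2 : ℝ) ^ (K + 1) * Fe (2 ^ (K + 1)) a := by
        have := Fe_nonneg (2 ^ (K + 1)) a
        positivity
      linarith

theorem inv_sqrt_le (K : ℕ) (δ : ℝ) (hδ : 0 < δ) (hK : δ⁻¹ ≤ (2 : ℝ) ^ K) (a : ℝ) :
    (Real.sqrt (a ^ 2 + δ ^ 2))⁻¹ ≤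
      8 * ∑ n ∈ Finset.range (K + 1), (2 : ℝ) ^ n * Fe (2 ^ n) a := by
  have hp : (0 : ℝ) < (2 : ℝ) ^ K := by positivity
  by_cases h : ((2 : ℝ) ^ K)⁻¹ < |a|
  · refine le_trans ?_ (inv_abs_le K a h)
    have h0 : 0 < |a| := lt_trans (by positivity) h
    apply inv_anti₀ h0
    apply Real.le_sqrt_of_sq_le
    rw [sq_abs]
    nlinarith [sq_nonneg δ]
  · push Not at h
    have h1 : ((2 ^ K : ℕ) : ℝ) * |a| ≤ 1 := by
      push_cast
      calc (2 : ℝ) ^ K * |a| ≤ (2 : ℝ) ^ K * ((2 : ℝ) ^ K)⁻¹ :=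
            mul_le_mul_of_nonneg_left h hp.le
        _ = 1 := mul_inv_cancel₀ hp.ne'
    have h2 := Fe_lower (2 ^ K) (Nat.one_le_two_pow) a h1
    have h3 : (Real.sqrt (a ^ 2 + δ ^ 2))⁻¹ ≤ δ⁻¹ := by
      apply inv_anti₀ hδ
      apply Real.le_sqrt_of_sq_le
      nlinarith [sq_nonneg a]
    have h4 : 2 ^ K * Fe (2 ^ K) a ≤ ∑ n ∈ Finset.range (K + 1), (2 : ℝ) ^ n * Fe (2 ^ n) a := by
      refine Finset.single_le_sum (f := fun n => (2 : ℝ) ^ n * Fe (2 ^ n) a) ?_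
        (Finset.self_mem_range_succ K)
      intro n _
      have := Fe_nonneg (2 ^ n) a
      positivity
    have h5 : (2 : ℝ) ^ K ≤ 4 * (2 ^ K * Fe (2 ^ K) a) := by nlinarith
    have h6 : 0 ≤ 2 ^ K * Fe (2 ^ K) a := by
      have := Fe_nonneg (2 ^ K) a
      positivity
    linarith

theorem geom_sqrt (K : ℕ) : ∑ j ∈ Finset.range (K + 1), Real.sqrt 2 ^ j ≤ 4 * Real.sqrt 2 ^ K := by
  have hr : (4 / 3 : ℝ) ≤ Real.sqrt 2 := by
    apply Real.le_sqrt_of_sq_le; norm_num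
  induction K with
  | zero => norm_num
  | succ K ih =>
    rw [Finset.sum_range_succ]
    have hp : 0 < Real.sqrt 2 ^ K := by positivity
    rw [pow_succ]
    nlinarith

theorem cr_neg {L : ℕ} [NeZero L] (q : ZMod L) : cr (-q) = cr q := by
  unfold cr
  rw [ZMod.stdAddChar_apply, ZMod.stdAddChar_apply, AddChar.map_neg_eq_inv,
    Circle.coe_inv_eq_conj, Complex.conj_re]

theorem Low_neg {d L : ℕ} [NeZero L] (θ : ℝ) (Q : T d L) : Low θ (-Q) ↔ Low θ Q := by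
  unfold Low
  simp only [Pi.neg_apply, cr_neg]

/-- one pair of dyadic scales -/
theorem pair (h : S_TWO) {d L : ℕ} [NeZero L] (hd : 3 ≤ d) {θ : ℝ} (hθ : 0 < θ) (hθ1 : θ ≤ 1)
    (Q : T d L) (hQ : ¬ Low θ Q) (K : ℕ) (hK : (1 + 2 * (2 : ℝ) ^ K) ^ 3 ≤ (L : ℝ) ^ 2) (E : ℝ)
    {n n' : ℕ} (hn : n ≤ K) (hn' : n' ≤ K) :
    (2 : ℝ) ^ n * 2 ^ n' * ∑ k : T d L, Fe (2 ^ n) (adj k - E) * Fe (2 ^ n') (adj (k + Q) - E) ≤
      40000 * (1 + K) * Real.sqrt 2 ^ n' / Real.sqrt θ * NN d L := by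
  have hNN : (0 : ℝ) < NN d L := NN_pos
  have hs2 : Real.sqrt 2 ^ 2 = 2 := Real.sq_sqrt (by norm_num)
  have h12 : (1 : ℝ) ≤ Real.sqrt 2 := by
    apply Real.le_sqrt_of_sq_le; norm_num
  have hsθ : 0 < Real.sqrt θ := Real.sqrt_pos.mpr hθ
  -- the general estimate with `m' ≤ m`
  have key : ∀ (P : T d L), ¬ Low θ P → ∀ m m' : ℕ, m' ≤ m → m ≤ K →
      (2 : ℝ) ^ m * 2 ^ m' * ∑ k : T d L, Fe (2 ^ m) (adj k - E) * Fe (2 ^ m') (adj (k + P) - E) ≤
      40000 * (1 + K) * Real.sqrt 2 ^ m' / Real.sqrt θ * NN d L := by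
    intro P hP m m' hmm hm
    have h1 := h d L hd θ hθ hθ1 P hP (2 ^ m) (2 ^ m') Nat.one_le_two_pow
      (Nat.pow_le_pow_right (by norm_num) hmm) ?_ E E
    · have hpm : (0 : ℝ) < (2 : ℝ) ^ m := by positivity
      have hpm' : (0 : ℝ) < (2 : ℝ) ^ m' := by positivity
      have h2 := mul_le_mul_of_nonneg_left h1 (mul_pos hpm hpm').le
      refine h2.trans ?_
      have hlog : Real.log ((2 ^ m : ℕ) : ℝ) ≤ K := by
        push_cast
        rw [Real.log_pow]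
        have hl2 : Real.log 2 ≤ 1 := by
          have := Real.log_le_sub_one_of_pos (show (0 : ℝ) < 2 by norm_num)
          linarith
        have hmK : (m : ℝ) ≤ K := by exact_mod_cast hm
        have hm0 : (0 : ℝ) ≤ m := by positivity
        have hl0 : 0 ≤ Real.log 2 := Real.log_nonneg (by norm_num)
        nlinarith
      have hsq : Real.sqrt (θ * ((2 ^ m' : ℕ) : ℝ)) = Real.sqrt θ * Real.sqrt 2 ^ m' := by
        rw [Real.sqrt_mul hθ.le]
        congr 1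
        push_cast
        rw [Real.sqrt_eq_iff_mul_self_eq (by positivity) (by positivity)]
        rw [← pow_two, ← pow_mul, mul_comm m' 2, pow_mul, hs2]
      rw [hsq]
      have e1 : (2 : ℝ) ^ m' = Real.sqrt 2 ^ m' * Real.sqrt 2 ^ m' := by
        rw [← pow_two, ← pow_mul, mul_comm m' 2, pow_mul, hs2]
      have hps : 0 < Real.sqrt 2 ^ m' := by positivity
      have e2 : (2 : ℝ) ^ m * 2 ^ m' * (40000 * (1 + Real.log ((2 ^ m : ℕ) : ℝ)) /
          (((2 ^ m : ℕ) : ℝ) * (Real.sqrt θ * Real.sqrt 2 ^ m')) * NN d L) =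
          40000 * (1 + Real.log ((2 ^ m : ℕ) : ℝ)) * Real.sqrt 2 ^ m' / Real.sqrt θ * NN d L := by
        rw [e1]
        push_cast
        field_simp
      rw [e2]
      apply mul_le_mul_of_nonneg_right _ hNN.le
      apply div_le_div_of_nonneg_right _ hsθ.le
      apply mul_le_mul_of_nonneg_right _ hps.le
      linarith
    · have hmK : (2 : ℝ) ^ m ≤ (2 : ℝ) ^ K := pow_le_pow_right₀ (by norm_num) hm
      refine le_trans ?_ hK
      push_cast
      have : (0 : ℝ) ≤ (2 : ℝ) ^ m := by positivity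
      apply pow_le_pow_left₀ (by positivity)
      linarith
  by_cases hle : n' ≤ n
  · exact key Q hQ n n' hle hn
  · push Not at hle
    have hQ' : ¬ Low θ (-Q) := by rw [Low_neg]; exact hQ
    have h1 := key (-Q) hQ' n' n hle.le hn'
    have e1 : ∑ k : T d L, Fe (2 ^ n) (adj k - E) * Fe (2 ^ n') (adj (k + Q) - E) =
        ∑ k : T d L, Fe (2 ^ n') (adj k - E) * Fe (2 ^ n) (adj (k + -Q) - E) := by
      rw [← Equiv.sum_comp (Equiv.addRight Q)
        (fun k : T d L => Fe (2 ^ n') (adj k - E) * Fe (2 ^ n) (adj (k + -Q) - E))]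
      refine Finset.sum_congr rfl fun k _ => ?_
      simp only [Equiv.coe_addRight, add_neg_cancel_right]
      ring
    rw [e1]
    have e2 : (2 : ℝ) ^ n * 2 ^ n' = 2 ^ n' * 2 ^ n := mul_comm _ _
    rw [e2]
    refine h1.trans ?_
    apply mul_le_mul_of_nonneg_right _ hNN.le
    apply div_le_div_of_nonneg_right _ hsθ.le
    apply mul_le_mul_of_nonneg_left _ (by positivity)
    exact pow_le_pow_right₀ h12 hle.le

/-- Task QB. -/
theorem qb (h : S_TWO) : S_QB := by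
  refine ⟨64 * 40000 * 4 * 36 * 2, by norm_num, ?_⟩
  intro d L _ hd θ δ E hθ hθ1 hδ hδ1 hL Q hQ
  have hNN : (0 : ℝ) < NN d L := NN_pos
  have hs2 : Real.sqrt 2 ^ 2 = 2 := Real.sq_sqrt (by norm_num)
  have hx : (1 : ℝ) ≤ 1 / δ := by
    rw [le_div_iff₀ hδ]; linarith
  obtain ⟨n, hn1, hn2⟩ := exists_nat_pow_near hx (by norm_num : (1 : ℝ) < 2)
  set K := n + 1 with hKdef
  have hK1 : δ⁻¹ ≤ (2 : ℝ) ^ K := by
    rw [← one_div]; exact hn2.le
  have hK2 : (2 : ℝ) ^ K ≤ 2 / δ := by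
    rw [hKdef, pow_succ]
    have : (2 : ℝ) / δ = 1 / δ * 2 := by ring
    rw [this]
    linarith
  have hKL : (1 + 2 * (2 : ℝ) ^ K) ^ 3 ≤ (L : ℝ) ^ 2 := by
    refine le_trans ?_ hL
    apply pow_le_pow_left₀ (by positivity)
    have : (4 : ℝ) / δ = 2 * (2 / δ) := by ring
    rw [this]
    linarith
  -- pointwise bound
  have hpt : ∀ k : T d L, (JJ E δ k * JJ E δ (k + Q))⁻¹ ≤
      64 * ∑ i ∈ Finset.range (K + 1), ∑ j ∈ Finset.range (K + 1),
        ((2 : ℝ) ^ i * 2 ^ j * (Fe (2 ^ i) (adj k - E) * Fe (2 ^ j) (adj (k + Q) - E))) := by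
    intro k
    rw [mul_inv]
    have h1 := inv_sqrt_le K δ hδ hK1 (adj k - E)
    have h2 := inv_sqrt_le K δ hδ hK1 (adj (k + Q) - E)
    have h3 : 0 ≤ (Real.sqrt ((adj (k + Q) - E) ^ 2 + δ ^ 2))⁻¹ := by positivity
    have h4 : 0 ≤ 8 * ∑ n ∈ Finset.range (K + 1), (2 : ℝ) ^ n * Fe (2 ^ n) (adj k - E) := by
      apply mul_nonneg (by norm_num)
      apply Finset.sum_nonneg
      intro i _
      have := Fe_nonneg (2 ^ i) (adj k - E)
      positivity
    have h5 := mul_le_mul h1 h2 h3 h4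
    unfold JJ
    refine h5.trans (le_of_eq ?_)
    have e1 : (8 * ∑ n ∈ Finset.range (K + 1), (2 : ℝ) ^ n * Fe (2 ^ n) (adj k - E)) *
        (8 * ∑ n ∈ Finset.range (K + 1), (2 : ℝ) ^ n * Fe (2 ^ n) (adj (k + Q) - E)) =
        64 * ((∑ n ∈ Finset.range (K + 1), (2 : ℝ) ^ n * Fe (2 ^ n) (adj k - E)) *
        (∑ n ∈ Finset.range (K + 1), (2 : ℝ) ^ n * Fe (2 ^ n) (adj (k + Q) - E))) := by ring
    rw [e1, Finset.sum_mul_sum]
    congr 1
    refine Finset.sum_congr rfl fun i _ => Finset.sum_congr rfl fun j _ => ?_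
    ring
  have hsum : ∑ k : T d L, (JJ E δ k * JJ E δ (k + Q))⁻¹ ≤
      64 * ∑ i ∈ Finset.range (K + 1), ∑ j ∈ Finset.range (K + 1),
        ((2 : ℝ) ^ i * 2 ^ j *
          ∑ k : T d L, (Fe (2 ^ i) (adj k - E) * Fe (2 ^ j) (adj (k + Q) - E))) := by
    refine (Finset.sum_le_sum fun k _ => hpt k).trans (le_of_eq ?_)
    rw [← Finset.mul_sum]
    congr 1
    rw [Finset.sum_comm]
    refine Finset.sum_congr rfl fun i _ => ?_
    rw [Finset.sum_comm]
    refine Finset.sum_congr rfl fun j _ => ?_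
    rw [Finset.mul_sum]
  refine hsum.trans ?_
  have hb : ∑ i ∈ Finset.range (K + 1), ∑ j ∈ Finset.range (K + 1),
        ((2 : ℝ) ^ i * 2 ^ j *
          ∑ k : T d L, (Fe (2 ^ i) (adj k - E) * Fe (2 ^ j) (adj (k + Q) - E))) ≤
      ∑ i ∈ Finset.range (K + 1), ∑ j ∈ Finset.range (K + 1),
        (40000 * (1 + K) * Real.sqrt 2 ^ j / Real.sqrt θ * NN d L) := by
    refine Finset.sum_le_sum fun i hi => Finset.sum_le_sum fun j hj => ?_
    exact pair h hd hθ hθ1 Q hQ K hKL E (Nat.lt_succ_iff.mp (Finset.mem_range.mp hi))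
      (Nat.lt_succ_iff.mp (Finset.mem_range.mp hj))
  have hsθ : 0 < Real.sqrt θ := Real.sqrt_pos.mpr hθ
  have hsδ : 0 < Real.sqrt δ := Real.sqrt_pos.mpr hδ
  have hc : ∑ i ∈ Finset.range (K + 1), ∑ j ∈ Finset.range (K + 1),
        (40000 * (1 + K) * Real.sqrt 2 ^ j / Real.sqrt θ * NN d L) ≤
      (K + 1) * (40000 * (1 + K) * (4 * Real.sqrt 2 ^ K) / Real.sqrt θ * NN d L) := by
    rw [Finset.sum_const, Finset.card_range, nsmul_eq_mul]
    push_cast
    apply mul_le_mul_of_nonneg_left _ (by positivity)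
    have e1 : ∑ j ∈ Finset.range (K + 1),
        (40000 * (1 + (K : ℝ)) * Real.sqrt 2 ^ j / Real.sqrt θ * NN d L) =
        40000 * (1 + K) * (∑ j ∈ Finset.range (K + 1), Real.sqrt 2 ^ j) / Real.sqrt θ *
          NN d L := by
      rw [Finset.mul_sum, Finset.sum_div, Finset.sum_mul]
    rw [e1]
    apply mul_le_mul_of_nonneg_right _ hNN.le
    apply div_le_div_of_nonneg_right _ hsθ.le
    exact mul_le_mul_of_nonneg_left (geom_sqrt K) (by positivity)
  have hsK : Real.sqrt 2 ^ K ≤ 2 / Real.sqrt δ := by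
    have h1 : Real.sqrt 2 ^ K = Real.sqrt (2 ^ K) := by
      symm
      rw [Real.sqrt_eq_iff_mul_self_eq (by positivity) (by positivity)]
      rw [← pow_two, ← pow_mul, mul_comm K 2, pow_mul, hs2]
    rw [h1]
    have h2 : Real.sqrt (2 ^ K) ≤ Real.sqrt (2 / δ) := Real.sqrt_le_sqrt hK2
    refine h2.trans ?_
    rw [Real.sqrt_div (by norm_num)]
    apply div_le_div_of_nonneg_right _ hsδ.le
    rw [Real.sqrt_le_left (by norm_num)]
    norm_num
  -- logarithms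
  set l := Real.log (1 / δ) with hl
  have hlog2 : (1 / 2 : ℝ) ≤ Real.log 2 := by
    have := Real.log_two_gt_d9
    linarith
  have hl2 : Real.log 2 ≤ l := by
    rw [hl]
    apply Real.log_le_log (by norm_num)
    rw [le_div_iff₀ hδ]; linarith
  have hnl : (n : ℝ) * Real.log 2 ≤ l := by
    rw [hl, ← Real.log_pow]
    exact Real.log_le_log (by positivity) hn1
  have hKl : (K : ℝ) + 1 ≤ 6 * l := by
    have e1 : (K : ℝ) = n + 1 := by rw [hKdef]; push_cast; ring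
    have hn0 : (0 : ℝ) ≤ n := by positivity
    rw [e1]
    nlinarith
  have hKl0 : (0 : ℝ) ≤ (K : ℝ) + 1 := by positivity
  have hl0 : 0 < l := by linarith
  have hfin : (K + 1 : ℝ) * (40000 * (1 + K) * (4 * Real.sqrt 2 ^ K) / Real.sqrt θ * NN d L) ≤
      40000 * 4 * 36 * 2 * l ^ 2 / Real.sqrt (δ * θ) * NN d L := by
    rw [Real.sqrt_mul hδ.le]
    have h1 : (K + 1 : ℝ) * (1 + K) ≤ 36 * l ^ 2 := by nlinarith
    have e1 : (K + 1 : ℝ) * (40000 * (1 + K) * (4 * Real.sqrt 2 ^ K) / Real.sqrt θ * NN d L) =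
        40000 * 4 * ((K + 1 : ℝ) * (1 + K)) * Real.sqrt 2 ^ K / Real.sqrt θ * NN d L := by ring
    have e2 : 40000 * 4 * 36 * 2 * l ^ 2 / (Real.sqrt δ * Real.sqrt θ) * NN d L =
        40000 * 4 * (36 * l ^ 2) * (2 / Real.sqrt δ) / Real.sqrt θ * NN d L := by
      field_simp
    rw [e1, e2]
    apply mul_le_mul_of_nonneg_right _ hNN.le
    apply div_le_div_of_nonneg_right _ hsθ.le
    apply mul_le_mul _ hsK (by positivity) (by positivity)
    exact mul_le_mul_of_nonneg_left h1 (by norm_num)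
  have hX : 0 ≤ l ^ 2 / Real.sqrt (δ * θ) * NN d L := by positivity
  calc 64 * ∑ i ∈ Finset.range (K + 1), ∑ j ∈ Finset.range (K + 1),
        ((2 : ℝ) ^ i * 2 ^ j *
          ∑ k : T d L, (Fe (2 ^ i) (adj k - E) * Fe (2 ^ j) (adj (k + Q) - E)))
      ≤ 64 * (40000 * 4 * 36 * 2 * l ^ 2 / Real.sqrt (δ * θ) * NN d L) :=
        mul_le_mul_of_nonneg_left (hb.trans (hc.trans hfin)) (by norm_num)
    _ = (64 * 40000 * 4 * 36 * 2) * (l ^ 2 / Real.sqrt (δ * θ) * NN d L) := by ring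
    _ ≤ (64 * 40000 * 4 * 36 * 2) * (l ^ 2 / Real.sqrt (δ * θ) * NN d L) := le_rfl
    _ = 64 * 40000 * 4 * 36 * 2 * l ^ 2 / Real.sqrt (δ * θ) * NN d L := by ring

end Pool.Agent.W465.BK
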