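import Pool.Agent.W95.BK.Stm

/-!
# Project BK (helper95), part MIXK: exponential mixing for the kernels
-/

set_option autoImplicit false

open Polynomial Topology Filter MeasureTheory

namespace Pool.Agent.W465.BK.MixK

open Pool.Agent.W95.BK

universe u

section
variable {K : Type u} [NontriviallyNormedField K] [IsUltrametricDist K] [IsAlgClosed K]

omit [IsUltrametricDist K] [IsAlgClosed K] in
theorem lam_zero (y : BA K) : lam y 0 = y X := by
  unfold lam
  simp

omit [IsUltrametricDist K] [IsAlgClosed K] in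
theorem lam_le (y : BA K) (z : K) : lam y z ≤ max 1 ‖z‖ * max 1 (y X) := by
  have h1 : lam y z ≤ max (y X) ‖z‖ := by
    unfold lam
    have h := y.map_add' X (C (-z))
    rw [y.map_C', norm_neg, C_neg, ← sub_eq_add_neg] at h
    exact h
  refine h1.trans (max_le ?_ ?_)
  · calc y X ≤ max 1 (y X) := le_max_right _ _
      _ = 1 * max 1 (y X) := (one_mul _).symm
      _ ≤ max 1 ‖z‖ * max 1 (y X) :=
        mul_le_mul_of_nonneg_right (le_max_left _ _) (zero_le_one.trans (le_max_left _ _))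
  · calc ‖z‖ ≤ max 1 ‖z‖ := le_max_right _ _
      _ = max 1 ‖z‖ * 1 := (mul_one _).symm
      _ ≤ max 1 ‖z‖ * max 1 (y X) :=
        mul_le_mul_of_nonneg_left (le_max_left _ _) (zero_le_one.trans (le_max_left _ _))

omit [IsAlgClosed K] in
theorem hk_gauss (hG : S_GLAM.{u}) (a : K) (r : ℝ) (hr : 0 < r) : HK (gauss a r hr) := by
  intro b hb
  have h1 := (hG K a b).2 r hr
  have h2 := (hG K b b).1
  rw [hb, h2, sub_self, norm_zero] at h1
  have : 0 < max ‖a - b‖ r := lt_max_of_lt_right hr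
  linarith

omit [IsUltrametricDist K] [IsAlgClosed K] in
theorem Q_ne (f : RMap K) : f.Q ≠ 0 := by
  intro h
  have h1 := f.cop
  rw [h, isCoprime_zero_right] at h1
  have h2 := natDegree_eq_zero_of_isUnit h1
  have h3 := f.deg_eq
  have h4 := f.pos
  rw [h, h2] at h3
  simp at h3
  omega

/-- the potential -/
noncomputable def LL (y : BA K) (z : K) : ℝ :=
  Real.log (max 1 ‖z‖) + Real.log (max 1 (y X)) - Real.log (lam y z)

omit [IsUltrametricDist K] [IsAlgClosed K] in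
theorem LL_nonneg (y : BA K) (z : K) (hy : 0 < lam y z) : 0 ≤ LL y z := by
  unfold LL
  have h1 : (0 : ℝ) < max 1 ‖z‖ := lt_max_of_lt_left one_pos
  have h2 : (0 : ℝ) < max 1 (y X) := lt_max_of_lt_left one_pos
  have h3 := Real.log_mul h1.ne' h2.ne'
  have := Real.log_le_log hy (lam_le y z)
  linarith

theorem lam_pos (hav : S_AVOID.{u}) (y : BA K) (hy : HK y) (z : K) : 0 < lam y z := by
  refine lt_of_le_of_ne (y.nonneg' _) (Ne.symm ?_)
  exact (hav K y hy).1 _ (X_sub_C_ne_zero z)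

theorem logGn (hG : S_GLAM.{u}) (hav : S_AVOID.{u}) (hact : S_ACT.{u}) (f : RMap K) (a : K)
    (t : ℝ) (ht : 0 < t) : ∃ y : BA K, HK y ∧ ∀ z : K,
      Real.log (gn a t (f.P - C z * f.Q)) =
        Real.log (max (gn a t f.P) (gn a t f.Q)) - LL y z + Real.log (max 1 ‖z‖) := by
  have hx := hk_gauss hG a t ht
  obtain ⟨y, hy, -, -, hl⟩ := (hact K f).1 _ hx
  refine ⟨y, hy, fun z => ?_⟩
  have e : ∀ h : K[X], gauss a t ht h = gn a t h := fun h => rfl
  have hq : 0 < gn a t f.Q :=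
    lt_of_le_of_ne ((gauss a t ht).nonneg' _) (Ne.symm ((hav K _ hx).1 _ (Q_ne f)))
  have hz : gn a t (f.P - C z * f.Q) = gn a t f.Q * lam y z := by
    rw [hl z, e, e]
    field_simp
  have hX : y X = gn a t f.P / gn a t f.Q := by
    rw [← lam_zero, hl 0, e, e]
    simp
  have hM : max (gn a t f.P) (gn a t f.Q) = gn a t f.Q * max 1 (y X) := by
    rw [hX, mul_max_of_nonneg _ _ hq.le, mul_one, mul_div_cancel₀ _ hq.ne', max_comm]
  have h2 : (0 : ℝ) < max 1 (y X) := lt_max_of_lt_left one_pos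
  rw [hz, hM, Real.log_mul hq.ne' (lam_pos hav y hy z).ne', Real.log_mul hq.ne' h2.ne']
  unfold LL
  ring

theorem sumFib (hG : S_GLAM.{u}) (hav : S_AVOID.{u}) (hact : S_ACT.{u}) (hsk : S_SUMK.{u})
    (f : RMap K) (a : K) (s t : ℝ) (hs : 0 < s) (ht : 0 < t) :
    ∃ y y' : BA K, HK y ∧ HK y' ∧ ∀ z : K, ((fib f z).map (ker a s t)).sum =
      (Real.log (max (gn a t f.P) (gn a t f.Q)) - Real.log (max (gn a s f.P) (gn a s f.Q)))
        - LL y z + LL y' z := by
  obtain ⟨y, hy, h1⟩ := logGn hG hav hact f a t ht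
  obtain ⟨y', hy', h2⟩ := logGn hG hav hact f a s hs
  refine ⟨y, y', hy, hy', fun z => ?_⟩
  rw [hsk K f z a s t hs ht, h1, h2]
  ring

theorem natDeg_ev (hav : S_AVOID.{u}) (F : RMap K) (x : BA K) (hx : HK x) :
    ∀ᶠ b in toward (x : P1B K), (F.P - C b * F.Q).natDegree = F.d := by
  filter_upwards [(hav K x hx).2 (F.P.coeff F.d / F.Q.coeff F.d)] with b hb
  have hP : F.P.natDegree ≤ F.d := F.deg_eq ▸ le_max_left _ _
  have hQ : F.Q.natDegree ≤ F.d := F.deg_eq ▸ le_max_right _ _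
  refine le_antisymm ?_ ?_
  · refine (natDegree_sub_le _ _).trans (max_le hP ?_)
    exact (natDegree_C_mul_le _ _).trans hQ
  · refine le_natDegree_of_ne_zero ?_
    rw [coeff_sub, coeff_C_mul]
    intro h0
    by_cases hq : F.Q.coeff F.d = 0
    · rw [hq, mul_zero, sub_zero] at h0
      have hd := F.pos
      rcases max_cases F.P.natDegree F.Q.natDegree with ⟨h, _⟩ | ⟨h, _⟩
      · rw [F.deg_eq] at h
        have h3 : F.P = 0 := by rw [← leadingCoeff_eq_zero, leadingCoeff, ← h, h0]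
        rw [h3] at h; simp at h; omega
      · rw [F.deg_eq] at h
        have h3 : F.Q = 0 := by rw [← leadingCoeff_eq_zero, leadingCoeff, ← h, hq]
        rw [h3] at h; simp at h; omega
    · apply hb
      rw [eq_div_iff hq]
      exact (sub_eq_zero.1 h0).symm

theorem bound (hfc : S_FIBC.{u}) (hit : S_ITER.{u}) (hact : S_ACT.{u}) (hav : S_AVOID.{u})
    (R : RMap K) (n j : ℕ) (φ ψ : P1B K → ℝ) (hφ : ∀ x, |φ x| ≤ 1) (c : ℝ) (y y' : BA K)
    (hy : HK y) (hy' : HK y')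
    (hψ : ∀ z : K, ((fib (R.iter j) z).map ψ).sum = c - LL y z + LL y' z) (B : ℝ) (b : K)
    (hb : ((R.iter n).P - C b * (R.iter n).Q).natDegree = (R.iter n).d)
    (h1 : (((R.iter n).P - C b * (R.iter n).Q).roots.map (LL y)).sum ≤ B)
    (h2 : (((R.iter n).P - C b * (R.iter n).Q).roots.map (LL y')).sum ≤ B) :
    |((fib (R.iter (n + j)) b).map (fun x => ψ x * φ ((R.iter j).act x))).sum
      - c * ((fib (R.iter n) b).map φ).sum| ≤ 2 * B := by
  have e1 : fib (R.iter (n + j)) b =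
      ((R.iter n).P - C b * (R.iter n).Q).roots.bind (fun z => fib (R.iter j) z) := by
    rw [(hit K R).2.1 n j]
    exact hfc K _ _ b hb
  have e2 : fib (R.iter n) b =
      ((R.iter n).P - C b * (R.iter n).Q).roots.map (fun w => ((cl w : BA K) : P1B K)) := by
    unfold fib
    rw [hb]
    simp
  set S := ((R.iter n).P - C b * (R.iter n).Q).roots with hS
  have e3 : ∀ z : K, ((fib (R.iter j) z).map (fun x => ψ x * φ ((R.iter j).act x))).sum =
      φ ((cl z : BA K) : P1B K) * (c - LL y z + LL y' z) := by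
    intro z
    rw [← hψ z]
    have : (fib (R.iter j) z).map (fun x => ψ x * φ ((R.iter j).act x)) =
        (fib (R.iter j) z).map (fun x => φ ((cl z : BA K) : P1B K) * ψ x) := by
      refine Multiset.map_congr rfl fun x hx => ?_
      rw [(hact K (R.iter j)).2.2.2.1 z x hx, mul_comm]
    rw [this, Multiset.sum_map_mul_left]
  have e4 : ((fib (R.iter (n + j)) b).map (fun x => ψ x * φ ((R.iter j).act x))).sum
      - c * ((fib (R.iter n) b).map φ).sum =
      (S.map (fun z => φ ((cl z : BA K) : P1B K) * (LL y' z - LL y z))).sum := by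
    rw [e1, e2, Multiset.map_bind, Multiset.sum_bind, Multiset.map_map]
    simp only [e3]
    rw [← Multiset.sum_map_mul_left, ← Multiset.sum_map_sub]
    refine congrArg _ (Multiset.map_congr rfl fun z _ => ?_)
    simp only [Function.comp_apply]
    ring
  rw [e4]
  refine Multiset.abs_sum_le_sum_abs.trans ?_
  rw [Multiset.map_map]
  have e5 : (S.map (abs ∘ fun z => φ ((cl z : BA K) : P1B K) * (LL y' z - LL y z))).sum ≤
      (S.map (fun z => LL y z + LL y' z)).sum := by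
    refine Multiset.sum_map_le_sum_map _ _ fun z _ => ?_
    simp only [Function.comp_apply, abs_mul]
    have l1 := LL_nonneg y z (lam_pos hav y hy z)
    have l2 := LL_nonneg y' z (lam_pos hav y' hy' z)
    have l3 : |LL y' z - LL y z| ≤ LL y z + LL y' z := by
      rw [abs_le]; constructor <;> linarith
    calc |φ ((cl z : BA K) : P1B K)| * |LL y' z - LL y z| ≤ 1 * |LL y' z - LL y z| :=
          mul_le_mul_of_nonneg_right (hφ _) (abs_nonneg _)
      _ ≤ LL y z + LL y' z := by rw [one_mul]; exact l3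
  refine e5.trans ?_
  rw [Multiset.sum_map_add]
  linarith

theorem main : S_T1.{u} → S_FIBC.{u} → S_ITER.{u} → S_ACT.{u} → S_ACTC.{u} → S_AVOID.{u} →
    S_SUMK.{u} → S_SUMN.{u} → S_KER.{u} → S_KERC.{u} → S_GREEN.{u} → S_GLAM.{u} →
    S_DENSE.{u} → S_MIXK.{u} := by
  intro hT hfc hit hact hactc hav hsk hsn hker hkerc hgr hG hde K _ _ _ R hd ρ hρ heq
  obtain ⟨B, hB, hBn⟩ := hsn K R hd
  obtain ⟨B', hB', hBg⟩ := hgr K R hd
  refine ⟨2 * B + 2 * B', by positivity, ?_⟩
  intro a s t hs ht φ hφ j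
  have hd0 : (0 : ℝ) < R.d := by
    have : 0 < R.d := by omega
    exact_mod_cast this
  have hdj : (0 : ℝ) < (R.d : ℝ) ^ j := pow_pos hd0 j
  obtain ⟨y, y', hy, hy', hψ⟩ := sumFib hG hav hact hsk (R.iter j) a s t hs ht
  set c : ℝ := Real.log (max (gn a t (R.iter j).P) (gn a t (R.iter j).Q)) -
    Real.log (max (gn a s (R.iter j).P) (gn a s (R.iter j).Q)) with hc
  have hx0 : HK (gauss (0 : K) 1 one_pos) := hk_gauss hG 0 1 one_pos
  have hne : (toward ((gauss (0 : K) 1 one_pos : BA K) : P1B K)).NeBot := hde K _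
  let Ψ : C(P1B K, ℝ) := ⟨fun x => ker a s t x * φ ((R.iter j).act x),
    (hkerc K a s t hs ht).mul (φ.continuous.comp (hactc K (R.iter j)))⟩
  have hpush : ∀ n : ℕ, |pushFun (R.iter (n + j)) Ψ ((gauss (0 : K) 1 one_pos : BA K) : P1B K) -
      c * pushFun (R.iter n) φ ((gauss (0 : K) 1 one_pos : BA K) : P1B K)| ≤
        2 * (B * (R.d : ℝ) ^ n) := by
    intro n
    have t1 := hT K (R.iter (n + j)) _ hx0 Ψ
    have t2 := hT K (R.iter n) _ hx0 φ
    have t3 := (t1.sub (t2.const_mul c)).abs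
    refine le_of_tendsto t3 ?_
    filter_upwards [natDeg_ev hav (R.iter n) _ hx0, hBn n y hy, hBn n y' hy'] with b b1 b2 b3
    exact bound hfc hit hact hav R n j φ (ker a s t) hφ c y y' hy hy' hψ _ b b1 b2 b3
  have hlim1 : |∫ z, Ψ z ∂ρ - c / (R.d : ℝ) ^ j * ∫ z, φ z ∂ρ| ≤ 2 * B / (R.d : ℝ) ^ j := by
    have t1 := (heq _ hx0 Ψ).comp (tendsto_add_atTop_nat j)
    have t2 := heq _ hx0 φ
    have t3 := (t1.sub (t2.const_mul (c / (R.d : ℝ) ^ j))).abs
    refine le_of_tendsto' t3 fun n => ?_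
    have hdn : (0 : ℝ) < (R.d : ℝ) ^ n := pow_pos hd0 n
    simp only [Function.comp_apply]
    have e : pushFun (R.iter (n + j)) Ψ ((gauss (0 : K) 1 one_pos : BA K) : P1B K) /
        (R.d : ℝ) ^ (n + j) - c / (R.d : ℝ) ^ j *
        (pushFun (R.iter n) φ ((gauss (0 : K) 1 one_pos : BA K) : P1B K) / (R.d : ℝ) ^ n) =
        (pushFun (R.iter (n + j)) Ψ ((gauss (0 : K) 1 one_pos : BA K) : P1B K) -
      c * pushFun (R.iter n) φ ((gauss (0 : K) 1 one_pos : BA K) : P1B K)) /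
        ((R.d : ℝ) ^ n * (R.d : ℝ) ^ j) := by
      rw [pow_add]
      field_simp
    rw [e, abs_div, abs_of_pos (mul_pos hdn hdj), div_le_div_iff₀ (mul_pos hdn hdj) hdj]
    have := mul_le_mul_of_nonneg_right (hpush n) hdj.le
    linarith
  have hcker : |c / (R.d : ℝ) ^ j - ∫ x, ker a s t x ∂ρ| ≤ 2 * B' / (R.d : ℝ) ^ j := by
    rw [hker K R hd ρ hρ heq a s t hs ht]
    have g1 := ((hBg (gauss a t ht)).2 j).2
    have g2 := ((hBg (gauss a s hs)).2 j).2
    have e : ∀ (r : ℝ) (hr : 0 < r) (h : K[X]), gauss a r hr h = gn a r h := fun _ _ _ => rfl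
    rw [e, e] at g1 g2
    rw [hc]
    rw [sub_div]
    have e2 : 2 * B' / (R.d : ℝ) ^ j = B' / (R.d : ℝ) ^ j + B' / (R.d : ℝ) ^ j := by ring
    rw [e2]
    rw [abs_le] at g1 g2 ⊢
    constructor <;> linarith [g1.1, g1.2, g2.1, g2.2]
  have hint : |∫ x, φ x ∂ρ| ≤ 1 := by
    have := norm_integral_le_of_norm_le_const (μ := ρ) (f := fun x => φ x) (C := 1)
      (Eventually.of_forall fun x => by rw [Real.norm_eq_abs]; exact hφ x)
    rw [Real.norm_eq_abs] at this
    simpa using this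
  have hfin : (∫ x, ker a s t x * φ ((R.iter j).act x) ∂ρ) -
      (∫ x, ker a s t x ∂ρ) * (∫ x, φ x ∂ρ) =
      (∫ z, Ψ z ∂ρ - c / (R.d : ℝ) ^ j * ∫ z, φ z ∂ρ) +
      (c / (R.d : ℝ) ^ j - ∫ x, ker a s t x ∂ρ) * ∫ x, φ x ∂ρ := by
    have : ∫ z, Ψ z ∂ρ = ∫ x, ker a s t x * φ ((R.iter j).act x) ∂ρ := rfl
    rw [this]
    ring
  rw [hfin]
  refine (abs_add_le _ _).trans ?_
  rw [abs_mul]
  have h5 : |c / (R.d : ℝ) ^ j - ∫ x, ker a s t x ∂ρ| * |∫ x, φ x ∂ρ| ≤
      2 * B' / (R.d : ℝ) ^ j * 1 :=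
    mul_le_mul hcker hint (abs_nonneg _) (by positivity)
  rw [add_div]
  linarith

end

end Pool.Agent.W465.BK.MixK
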